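import Pool.Agent.U143.AR.Main

/-!
# Non-vanishing at the edge in towers of alternating extensions

`X` is a smooth projective variety over a number field `K`, for example over `K = ℚ`, and `i` an integer.
For every number field `L ⊇ K` the variety `X_L`, seen as a variety over `ℚ`, is smooth and projective;
`L(H^i(X_L), s)` is an Euler product over the primes of `L`.  The question is about the order at
`s₀ = i/2 + 1`; the theorem is about all points `i/2 + 1 + iτ` of the edge line.
The definitions are in `Pool.Agent.U143.AR.Defs`, `Pool.Agent.TH526.DS.CamDefs`,
`Pool.Agent.W353.AT.Defs`, `Pool.Agent.W353.EH.Defs` and `Pool.Agent.W353.EF.Defs`.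
-/

set_option autoImplicit false

namespace Pool.Agent.Results.MP_2b9663_nt.AlternatingTowers

open NumberField

/-- **The edge line in towers of alternating extensions.**  For every `N` there is a number `m₀` with the
following property.  Let `X` be a projective variety of dimension `d` over a number field `K`, `0 ≤ i ≤ 2d`,
`N` the `i`-th Betti number and `τ` real.  Let `M ⊆ F` be finite Galois extensions of `K` and
`M = E_t ⊆ … ⊆ E_0 = F` a chain of Galois extensions of `K` such that every `Gal(E_i/E_{i+1})` is an
alternating group of degree at least `m₀`.  Suppose that the `L`-functions `L(H^i(X) ⊗ χ, s)`, for the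
irreducible representations `χ` of `Gal(F/K)` that are not trivial on `Gal(F/M)`, have meromorphic
continuations to neighbourhoods of `i/2 + 1 + iτ`.  Then:
* none of them has a zero or a pole at `i/2 + 1 + iτ`;
* for every field `L` between `K` and `F` (Galois over `K` or not) the orders of `L(H^i(X_L), s)` and of
  `L(H^i(X_{L ∩ M}), s)` at `i/2 + 1 + iτ` are equal, if these functions have continuations: if the
  `L`-function over `L ∩ M` does not vanish, then neither does the one over `L`. -/
theorem result (N : ℕ) : ∃ m₀ : ℕ, ∀ (K : Type) [Field K] [NumberField K] (n : ℕ)
    (X : Set (MvPolynomial (Fin n) (𝓞 K))) (d i : ℕ), i ≤ 2 * d →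
    Pool.Agent.U143.AR.EdgeRigidity X d i N m₀ :=
  Pool.Agent.U143.AR.edgeRigidity N

end Pool.Agent.Results.MP_2b9663_nt.AlternatingTowers
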