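import Pool.Agent.U569.APL.FamP
import Pool.Agent.Results.MP_2b9663_nt.ThinSequences

/-!
# Elliptic curves over a number field with coefficients formed from arbitrary sets, near the whole line `Re s = 3/2`

`K` is an arbitrary number field with an integral basis `ω_i`, `i ∈ I`, and `A`, `B` are polynomials in finitely many
variables `u_j`, `j ∈ J`, with coefficients in `𝓞 K`. For the vectors `c = (t, u)` of integers consider the curves

`E_c : y² = x³ + A(u) x + B(u) + t`, `t = ∑ t_i ω_i`.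

**Theorem.** For all `ε, β > 0` and `B₀` there is `k` such that for every sequence (`j = 0, 1, 2, …`) of finite families of
integral vectors `c` of the following kind, for large `j` and for all but the fraction `ε` of the members `c` of the `j`-th
family, the logarithm of the Euler product satisfies

`|log L(E_c/K, s)| ≤ k (1 + |Im s|)` for ALL `s` with `3/2 + A₀ / log (2 + |c|) ≤ Re s ≤ 5/2`, `A₀ = 2 (B₀ + 2) / β`,

where `|c|` is the sum of the absolute values of the coordinates (`L(E_c/K, s)` is defined with minimal models at all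
primes of `K`). So for the abelian varieties `Res_{K/ℚ} E_c` over `ℚ` and `i = 1` there is a quantitative non-vanishing
up to a distance of the order `1 / log` (size of the coefficients) from the whole edge of absolute convergence. The members
are `c₀ + y`, where `|c₀| ≤ q ^ B₀` and `y` is one of the following vectors of `r = |I| + |J|` coordinates (represented by
`0, …, q - 1`), `q → ∞`:

* `y` in any family of vectors modulo `q` whose nontrivial Fourier coefficients are at most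
  `1 / (Z (42 + 3 log q) ^ r)`, `q ^ β ≤ Z ≤ q` (`PowerFlat`);
* (the last four with `q = P` prime, `0 < δ ≤ 1` and `β = δ / 8`) `b(x, z) + u(x) + w(z)`, where
  `b : k ^ m × k ^ n → k ^ r` is bilinear, the nontrivial combinations of its coordinates have rank at least `ρ`, `x`
  and `z` are in ARBITRARY sets `E` and `F` with `|E| |F| ≥ P ^ (m + n - ρ + δ)`, `u` and `w` are arbitrary functions;
* the same for `b(x, z) = x z`, `x` and `z` in ARBITRARY subsets of the field of `P ^ r` elements,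
  `|E| |F| ≥ P ^ (r + δ)`;
* polynomials in `k` variables of degree at most `P ^ (δ / 4)`, all nontrivial combinations of which have a monomial with
  at least two variables, plus arbitrary functions of the single variables, on products of `k` ARBITRARY sets of at
  least `P ^ (1 / 2 + δ)` residues; for example the curves `y² = x³ + (a b mod P) x + (a b c mod P)`, `a, b, c ∈ S`;
* polynomials in one variable of degree at most `P ^ (δ / 4)`, no nontrivial combination of which is constant, on any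
  subgroup of the multiplicative group modulo `P` with at least `P ^ (1 / 2 + δ)` elements.

New: the families; one exceptional set for all heights `|Im s|`. Starting libraries: `N666.TM.majorant_ec` (mean values of
a majorant of `|log L|²` in rectangles over well distributed sequences) and the transfer `N384.VF.transferK`; the
estimates of the Fourier coefficients on arbitrary sets are in `U569/APL`.
-/

set_option autoImplicit false

open NumberField IsDedekindDomain

namespace Pool.Agent.Results.MP_2b9663_nt.ArbitrarySets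

open Filter
open Pool.Agent.Results.MP_2b9663_nt.ThinSequences (MinimalModels LSeries logL curve)
open Pool.Agent.U569.APL
open Pool.Agent.N384.VF (VFam transferK kap kap_pos)

section
variable {K : Type} [Field K] [NumberField K] {I J : Type} [Fintype I] [Fintype J] [DecidableEq I] [DecidableEq J]

/-- The logarithm of `L(E_c/K, s)` is at most `k (1 + |Im s|)` for all `s` with `3/2 + σ ≤ Re s ≤ 5/2`. -/
def Bounded (ω : Module.Basis I ℤ (𝓞 K)) (A B : MvPolynomial J (𝓞 K)) (k σ : ℝ) (c : I ⊕ J → ℤ) : Prop :=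
  ∀ M : HeightOneSpectrum (𝓞 K) → WeierstrassCurve (𝓞 K), MinimalModels (curve ω A B c) M →
    ∀ s : ℂ, 3 / 2 + σ ≤ s.re → s.re ≤ 5 / 2 → ‖logL M s‖ ≤ k * (1 + |s.im|)

/-- one exceptional set for all heights, for well distributed sequences -/
lemma aux (ω : Module.Basis I ℤ (𝓞 K)) (A B : MvPolynomial J (𝓞 K)) (ε : ℝ) (hε : 0 < ε) {S : ℕ → Finset ℕ}
    {x : ℕ → I ⊕ J → ℤ} {κ : ℝ} (hκ : 0 < κ)
    (hw : ∃ N₀ : ℕ, ∀ N : ℕ, N₀ ≤ N → ∀ H : ℕ, (H : ℝ) ≤ (N : ℝ) ^ κ →
      Pool.Agent.N666.TM.Well (S N) x H) :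
    ∃ k N₀ : ℕ, ∀ N : ℕ, N₀ ≤ N →
      ({n : ℕ | n ∈ S N ∧ ¬ Bounded ω A B k (1 / Real.log N) (x n)}.ncard : ℝ) ≤ ε * (S N).card := by
  classical
  have hlog : ∀ (M : HeightOneSpectrum (𝓞 K) → WeierstrassCurve (𝓞 K)) (s : ℂ),
      logL M s = ∑' v : HeightOneSpectrum (𝓞 K), Pool.Agent.N534.EC.ll M (s - 3 / 2) v := by
    intro M s
    have e : (3 / 2 + (s - 3 / 2) : ℂ) = s := by ring
    unfold Pool.Agent.N534.EC.ll
    rw [e]
    rfl
  obtain ⟨C, hC, N₀, h⟩ := Pool.Agent.N666.TM.majorant_ec ω A B hκ hw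
  obtain ⟨k, hk⟩ := exists_nat_ge (4 * Real.sqrt (C / ε))
  refine ⟨k, N₀, fun N hN => ?_⟩
  choose M' hM0 hM1 hM2 using fun i : ℕ => h N hN ((2 : ℝ) ^ i) (by positivity)
  -- the exceptional sets
  obtain ⟨X, hX⟩ : ∃ X : ℕ → Finset ℕ, X = fun i => (S N).filter (fun n => C * (1 + 2 ^ i) * 2 ^ (i + 1) / ε < M' i (x n)) :=
    ⟨_, rfl⟩
  have hXc : ∀ i, ((X i).card : ℝ) ≤ ε / 2 ^ (i + 1) * (S N).card := by
    intro i
    have h1 : ((X i).card : ℝ) * (C * (1 + 2 ^ i) * 2 ^ (i + 1) / ε) ≤ ∑ n ∈ X i, M' i (x n) := by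
      rw [← nsmul_eq_mul, hX]
      exact Finset.card_nsmul_le_sum _ _ _ fun n hn => (Finset.mem_filter.mp hn).2.le
    have h2 : ∑ n ∈ X i, M' i (x n) ≤ ∑ n ∈ S N, M' i (x n) := by
      rw [hX]
      exact Finset.sum_le_sum_of_subset_of_nonneg (Finset.filter_subset _ _) fun n _ _ => hM0 i _
    have h3 := (h1.trans h2).trans (hM1 i)
    have hc : (0 : ℝ) < C * (1 + 2 ^ i) := by positivity
    have e1 : ((X i).card : ℝ) * (C * (1 + 2 ^ i) * 2 ^ (i + 1) / ε) =
        C * (1 + 2 ^ i) * (((X i).card : ℝ) * (2 ^ (i + 1) / ε)) := by ring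
    rw [e1] at h3
    have h4 := le_of_mul_le_mul_left h3 hc
    have e2 : ((X i).card : ℝ) = ((X i).card : ℝ) * (2 ^ (i + 1) / ε) * (ε / 2 ^ (i + 1)) := by
      field_simp
    rw [e2, mul_comm (ε / 2 ^ (i + 1)) _]
    exact mul_le_mul_of_nonneg_right h4 (by positivity)
  -- a point outside
  have hgood : ∀ n ∈ S N, (∀ i, n ∉ X i) → Bounded ω A B k (1 / Real.log N) (x n) := by
    intro n hn hnX M hM s hs1 hs2
    obtain ⟨i, hi1, hi2⟩ : ∃ i : ℕ, |s.im| ≤ 2 ^ i ∧ (2 : ℝ) ^ i ≤ 2 * (1 + |s.im|) := by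
      by_cases h1 : |s.im| ≤ 1
      · exact ⟨0, by simpa using h1, by
          have := abs_nonneg s.im
          norm_num
          linarith⟩
      · push Not at h1
        obtain ⟨m, hm1, hm2⟩ := exists_nat_pow_near h1.le (by norm_num : (1 : ℝ) < 2)
        exact ⟨m + 1, hm2.le, by rw [pow_succ]; linarith⟩
    have h1 : M' i (x n) ≤ C * (1 + 2 ^ i) * 2 ^ (i + 1) / ε := by
      by_contra hcon
      push Not at hcon
      refine hnX i ?_
      rw [hX, Finset.mem_filter]
      exact ⟨hn, hcon⟩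
    have e1 : (s - 3 / 2 : ℂ).re = s.re - 3 / 2 := by simp
    have e2 : (s - 3 / 2 : ℂ).im = s.im := by simp
    have h2 := hM2 i (x n) M hM (s - 3 / 2) (by rw [e1]; linarith) (by rw [e1]; linarith) (by rw [e2]; exact hi1)
    rw [← hlog] at h2
    have h3 : C * (1 + 2 ^ i) * 2 ^ (i + 1) / ε ≤ (4 * Real.sqrt (C / ε) * (1 + |s.im|)) ^ 2 := by
      have h4 : (1 : ℝ) + 2 ^ i ≤ 2 * 2 ^ i := by
        have : (1 : ℝ) ≤ 2 ^ i := one_le_pow₀ (by norm_num)
        linarith
      have h5 : (4 * Real.sqrt (C / ε) * (1 + |s.im|)) ^ 2 = 16 * (C / ε) * (1 + |s.im|) ^ 2 := by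
        rw [mul_pow, mul_pow, Real.sq_sqrt (by positivity)]
        ring
      rw [h5]
      calc C * (1 + 2 ^ i) * 2 ^ (i + 1) / ε ≤ C * (2 * 2 ^ i) * 2 ^ (i + 1) / ε := by gcongr
        _ = 4 * (C / ε) * ((2 : ℝ) ^ i) ^ 2 := by
          rw [pow_succ]
          ring
        _ ≤ 4 * (C / ε) * (2 * (1 + |s.im|)) ^ 2 := by gcongr
        _ = _ := by ring
    have hk' : 4 * Real.sqrt (C / ε) * (1 + |s.im|) ≤ k * (1 + |s.im|) :=
      mul_le_mul_of_nonneg_right hk (by positivity)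
    refine le_trans ?_ hk'
    exact abs_le_of_sq_le_sq' ((h2.trans h1).trans h3) (by positivity) |>.2
  -- finitely many exceptional sets suffice
  have hfin : ∃ m : ℕ, ∀ n ∈ S N, (∃ i, n ∈ X i) → ∃ i < m, n ∈ X i := by
    have h1 : ∀ n, ∃ m : ℕ, (∃ i, n ∈ X i) → ∃ i < m, n ∈ X i := by
      intro n
      by_cases h2 : ∃ i, n ∈ X i
      · obtain ⟨i, hi⟩ := h2
        exact ⟨i + 1, fun _ => ⟨i, Nat.lt_succ_self i, hi⟩⟩
      · exact ⟨0, fun h3 => absurd h3 h2⟩
    choose m hm using h1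
    refine ⟨(S N).sup m, fun n hn h2 => ?_⟩
    obtain ⟨i, hi1, hi2⟩ := hm n h2
    exact ⟨i, lt_of_lt_of_le hi1 (Finset.le_sup (f := m) hn), hi2⟩
  obtain ⟨m, hm⟩ := hfin
  have hsub : {n : ℕ | n ∈ S N ∧ ¬ Bounded ω A B k (1 / Real.log N) (x n)} ⊆ ((Finset.range m).biUnion X : Finset ℕ) := by
    rintro n ⟨hn, hn'⟩
    rw [Finset.coe_biUnion]
    have h1 : ∃ i, n ∈ X i := by
      by_contra hcon
      push Not at hcon
      exact hn' (hgood n hn hcon)
    obtain ⟨i, hi1, hi2⟩ := hm n hn h1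
    exact Set.mem_biUnion (Finset.mem_coe.2 (Finset.mem_range.2 hi1)) hi2
  have h1 := Set.ncard_le_ncard hsub (Finset.finite_toSet _)
  rw [Set.ncard_coe_finset] at h1
  have h2 : ((((Finset.range m).biUnion X).card : ℕ) : ℝ) ≤ ∑ i ∈ Finset.range m, ((X i).card : ℝ) := by
    exact_mod_cast Finset.card_biUnion_le
  have h3 : ∑ i ∈ Finset.range m, ((X i).card : ℝ) ≤ ε * (S N).card := by
    have h4 : ∀ m : ℕ, ∑ i ∈ Finset.range m, ε / 2 ^ (i + 1) = ε * (1 - 1 / 2 ^ m) := by
      intro m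
      induction m with
      | zero => simp
      | succ m ih =>
        rw [Finset.sum_range_succ, ih, pow_succ]
        field_simp
        ring
    calc ∑ i ∈ Finset.range m, ((X i).card : ℝ) ≤ ∑ i ∈ Finset.range m, ε / 2 ^ (i + 1) * (S N).card :=
          Finset.sum_le_sum fun i _ => hXc i
      _ = ε * (1 - 1 / 2 ^ m) * (S N).card := by rw [← Finset.sum_mul, h4]
      _ ≤ ε * 1 * (S N).card := by
          gcongr
          have : (0 : ℝ) < 1 / 2 ^ m := by positivity
          linarith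
      _ = _ := by ring
  calc _ ≤ ((((Finset.range m).biUnion X).card : ℕ) : ℝ) := by exact_mod_cast h1
    _ ≤ _ := h2.trans h3

lemma bounded_mono {ω : Module.Basis I ℤ (𝓞 K)} {A B : MvPolynomial J (𝓞 K)} {k k' σ σ' : ℝ} {c : I ⊕ J → ℤ}
    (hk : k ≤ k') (hσ : σ ≤ σ') (h : Bounded ω A B k σ c) : Bounded ω A B k' σ' c := by
  intro M hM s h1 h2
  exact (h M hM s (by linarith) h2).trans (mul_le_mul_of_nonneg_right hk (by positivity))

/-- **Elliptic curves with coefficients formed from arbitrary sets, near the line `Re s = 3/2`.** -/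
theorem result (ω : Module.Basis I ℤ (𝓞 K)) (A B : MvPolynomial J (𝓞 K)) (B₀ : ℕ) :
    (∀ (M : HeightOneSpectrum (𝓞 K) → WeierstrassCurve (𝓞 K)) (s : ℂ), 3 / 2 < s.re →
      LSeries M s = Complex.exp (logL M s)) ∧
    (∀ ε β : ℝ, 0 < ε → 0 < β → ∃ k : ℕ, ∀ (τ : ℕ → Type) (s : ∀ j, Finset (τ j)) (v : ∀ j, τ j → I ⊕ J → ℤ),
      PowerFlat β B₀ s v → ∀ᶠ j in atTop,
        ({i : τ j | i ∈ s j ∧ ¬ Bounded ω A B k (2 * (B₀ + 2) / β / Real.log (2 + ∑ l, |(v j i l : ℝ)|)) (v j i)}.ncard : ℝ) ≤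
          ε * (s j).card) ∧
    ExamplesP (I ⊕ J) B₀ := by
  classical
  refine ⟨?_, fun ε β hε hβ => ?_, examplesP _ _⟩
  · intro M s hs
    have h1 := Pool.Agent.N534.EC.exp_ll M (u := s - 3 / 2) (by
      have : (s - 3 / 2 : ℂ).re = s.re - 3 / 2 := by simp
      rw [this]
      linarith)
    have e : (3 / 2 + (s - 3 / 2) : ℂ) = s := by ring
    have hlog : logL M s = ∑' v : HeightOneSpectrum (𝓞 K), Pool.Agent.N534.EC.ll M (s - 3 / 2) v := by
      unfold Pool.Agent.N534.EC.ll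
      rw [e]
      rfl
    rw [e, ← hlog] at h1
    exact h1
  · obtain ⟨k, Z₀, h⟩ := transferK (fun k N v => Bounded ω A B k (1 / Real.log N) v)
      (fun k k' N v hk h => bounded_mono (by exact_mod_cast hk) le_rfl h) ε hε
      (fun S x hw => aux ω A B ε hε (kap_pos _) hw)
    refine ⟨k, fun τ s v hs => ?_⟩
    -- the size of `q`
    obtain ⟨r, hr⟩ : ∃ r : ℕ, r = Fintype.card (I ⊕ J) := ⟨_, rfl⟩
    filter_upwards [hs (max (max (Z₀ : ℝ) 16) (2 + 2 * r))] with j hj
    obtain ⟨q, _, y, c₀, Z, g1, g2, g3, g4, g5, g6⟩ := hj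
    have hv : v j = fun i l => c₀ l + ((y i l).val : ℕ) := by
      funext i l
      exact g6 i l
    have hZ16 : 16 ≤ Z := ((le_max_right _ _).trans (le_max_left _ _)).trans g1
    have hqr : 2 + 2 * (r : ℝ) ≤ q := ((le_max_right _ _).trans g1).trans g2
    have hq16 : (16 : ℝ) ≤ q := hZ16.trans g2
    have hq1 : (1 : ℝ) ≤ q := by linarith
    have hq0 : (0 : ℝ) < q := by linarith
    have h1 := h (τ j) q (s j) y Z (((le_max_left _ _).trans (le_max_left _ _)).trans g1) ⟨g2, g5⟩ c₀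
    refine le_trans ?_ h1
    refine Nat.cast_le.2 (Set.ncard_le_ncard ?_ ((s j).finite_toSet.subset fun i hi => hi.1))
    rintro i ⟨hi, hi'⟩
    refine ⟨hi, fun hb => hi' ?_⟩
    rw [hv]
    refine bounded_mono le_rfl ?_ hb
    -- comparison of the distances
    have hl : ∀ l, |((c₀ l + ((y i l).val : ℕ) : ℤ) : ℝ)| ≤ 2 * (q : ℝ) ^ (B₀ + 1) := by
      intro l
      have h9 : (((y i l).val : ℕ) : ℝ) ≤ q := by exact_mod_cast (ZMod.val_lt (y i l)).le
      have h10 : (q : ℝ) ^ B₀ ≤ (q : ℝ) ^ (B₀ + 1) := pow_le_pow_right₀ hq1 (by omega)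
      have h11 : (q : ℝ) ≤ (q : ℝ) ^ (B₀ + 1) := by
        calc (q : ℝ) = (q : ℝ) ^ 1 := (pow_one _).symm
          _ ≤ _ := pow_le_pow_right₀ hq1 (by omega)
      push_cast
      refine (abs_add_le _ _).trans ?_
      rw [abs_of_nonneg (Nat.cast_nonneg _ : (0 : ℝ) ≤ ((y i l).val : ℕ))]
      have := g4 l
      linarith
    have hsum : 2 + ∑ l, |((c₀ l + ((y i l).val : ℕ) : ℤ) : ℝ)| ≤ (q : ℝ) ^ (B₀ + 2) := by
      have h12 : ∑ l : I ⊕ J, |((c₀ l + ((y i l).val : ℕ) : ℤ) : ℝ)| ≤ r * (2 * (q : ℝ) ^ (B₀ + 1)) := by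
        refine (Finset.sum_le_sum fun l _ => hl l).trans ?_
        rw [Finset.sum_const, Finset.card_univ, nsmul_eq_mul, ← hr]
      have h13 : (1 : ℝ) ≤ (q : ℝ) ^ (B₀ + 1) := one_le_pow₀ hq1
      calc 2 + ∑ l : I ⊕ J, |((c₀ l + ((y i l).val : ℕ) : ℤ) : ℝ)| ≤
            2 * (q : ℝ) ^ (B₀ + 1) + r * (2 * (q : ℝ) ^ (B₀ + 1)) := add_le_add (by linarith) h12
        _ = (2 + 2 * r) * (q : ℝ) ^ (B₀ + 1) := by ring
        _ ≤ q * (q : ℝ) ^ (B₀ + 1) := mul_le_mul_of_nonneg_right hqr (by positivity)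
        _ = (q : ℝ) ^ (B₀ + 2) := by ring
    have hpos : (0 : ℝ) ≤ ∑ l, |((c₀ l + ((y i l).val : ℕ) : ℤ) : ℝ)| := Finset.sum_nonneg fun l _ => abs_nonneg _
    have hlog1 : 0 < Real.log (2 + ∑ l, |((c₀ l + ((y i l).val : ℕ) : ℤ) : ℝ)|) := Real.log_pos (by linarith)
    have hlog2 : Real.log (2 + ∑ l, |((c₀ l + ((y i l).val : ℕ) : ℤ) : ℝ)|) ≤ (B₀ + 2) * Real.log q := by
      refine (Real.log_le_log (by linarith) hsum).trans ?_
      rw [Real.log_pow]
      push_cast
      exact le_rfl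
    have hlogZ : β / 2 * Real.log q ≤ Real.log (⌊Z⌋₊ : ℕ) := by
      have h2 : Real.sqrt Z ≤ (⌊Z⌋₊ : ℕ) := by
        have h3 : Real.sqrt Z ≤ Z - 1 := by
          rw [Real.sqrt_le_left (by linarith)]
          nlinarith
        have h4 := (Nat.lt_floor_add_one Z).le
        linarith
      have h5 : (0 : ℝ) < Z := by linarith
      calc β / 2 * Real.log q = 1 / 2 * Real.log ((q : ℝ) ^ β) := by rw [Real.log_rpow hq0]; ring
        _ ≤ 1 / 2 * Real.log Z := by
            gcongr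
        _ = Real.log (Real.sqrt Z) := by rw [Real.log_sqrt h5.le]; ring
        _ ≤ _ := Real.log_le_log (Real.sqrt_pos.2 h5) h2
    have hlq : 0 < Real.log q := Real.log_pos (by linarith)
    have hlogZ0 : 0 < Real.log (⌊Z⌋₊ : ℕ) := lt_of_lt_of_le (by positivity) hlogZ
    rw [div_div, div_le_div_iff₀ hlogZ0 (by positivity), one_mul]
    calc β * Real.log (2 + ∑ l, |((c₀ l + ((y i l).val : ℕ) : ℤ) : ℝ)|) ≤ β * ((B₀ + 2) * Real.log q) := by gcongr
      _ = 2 * (B₀ + 2) * (β / 2 * Real.log q) := by ring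
      _ ≤ _ := by gcongr

end

end Pool.Agent.Results.MP_2b9663_nt.ArbitrarySets
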