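import Pool.Agent.U597.EX.One

/-!
# Non-vanishing at the edge from one-sided bounds in distant windows

`X` is a projective variety over a number field `K` (for example `K = ℚ`), and `L(s)` is the Euler
product of `H^i(X)` over the good primes; the edge of absolute convergence is the line
`Re s = i/2 + 1`, and `L` has boundary values `l(u)` at `i/2 + 1 + iu` for all real `u` outside a set of
Hausdorff dimension `0`.

The theorem is about one-sided bounds for products of shifts of such functions, which hold in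
arbitrarily long windows of the edge, anywhere on the line, outside subsets whose proportion tends to
`0`.  Such a bound is automatically a two-sided bound in the whole half-plane, and it gives a relation
between the orders of the functions at all points of the edge.  If the quotient `|l(u + τ)| / |l(u)|` of
one function and its shift is bounded above in such windows, for one real `τ ≠ 0`, then the function
is of the size `(Re s - i/2 - 1)^{o(1)}` near the edge, uniformly, and the complete L-function (with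
arbitrary factors at the bad primes) does not vanish at any point of the edge to which it continues,
in particular at `s₀ = i/2 + 1`.

The definitions of `IsFrobenius`, `IsEulerSystem`, `localFactor`, `LFun`, `edgePoint` and `angle` are in
`Pool/Agent/TH958/BV/Defs.lean`, that of `Good` in `Pool/Agent/U597/EW/Defs.lean`, that of `OftenAbove` in
`Pool/Agent/U597/EX/Defs.lean`, and those of `LGood` and `HasOrder` in `Pool/Agent/U597/EX/Defs2.lean`.
-/

set_option autoImplicit false

namespace Pool.Agent.Results.MP_2b9663_nt.BoundedQuotients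

open NumberField IsDedekindDomain MeasureTheory Filter Topology Polynomial
open Pool.Agent.TH958.BV Pool.Agent.U597.EW Pool.Agent.U597.EX

/-- **Bounded quotients and orders on the edge.**  Let `X_j` be projective varieties over number fields
`K_j` (`j` in a finite set) and `L_j` the Euler product of `H^{i_j}(X_j)` over the good primes.  There are
functions `l_j` on the real line such that:

0. outside a set of Hausdorff dimension `0`, `l_j(u) ≠ 0` and `L_j(s)` tends to `l_j(u)` as `s` tends to
   `i_j/2 + 1 + iu` in any angle in the half-plane `Re s > i_j/2 + 1`;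
1. if `c_j`, `τ_j` and `A` are real and it is not the case that `∏ |l_j(u + τ_j)|^{c_j} > e^A` on a
   positive proportion, bounded from below, of all sufficiently long windows, then
   `|∑ c_j log |L_j(s + i_j/2 + iτ_j)|| ≤ A + ∑ |c_j| [K_j : ℚ] N_j` for all `s` with `Re s > 1`, and
   `∑ c_j m_j = 0` for all real `t` such that the `L_j` have orders `m_j` at `i_j/2 + 1 + i(t + τ_j)`;
2. if `τ ≠ 0` and `A` are real and it is not the case that `|l_k(u + τ)| > e^A |l_k(u)|` on a positive
   proportion, bounded from below, of all sufficiently long windows, then for all `ε > 0` there is `C`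
   such that `|log |L_k(σ + it)|| ≤ ε log (1 / (σ - i_k/2 - 1)) + C` for all real `t` and all `σ` with
   `0 < σ - i_k/2 - 1 ≤ 1`; at all points of the edge at which `L_k` has an order, the order is `0`; and at
   all points of the edge at which the complete Euler product of `H^{i_k}(X_k)`, with arbitrary bad
   factors, has an order, this order is not positive: there is no zero. -/
theorem result (ι : Type) [Fintype ι] (K : ι → Type) [∀ j, Field (K j)] [∀ j, NumberField (K j)]
    (n : ι → ℕ) (X : ∀ j, Set (MvPolynomial (Fin (n j)) (𝓞 (K j)))) (d i N : ι → ℕ)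
    (B : ∀ j, HeightOneSpectrum (𝓞 (K j)) → ℂ[X])
    (_ : ∀ j, IsEulerSystem (X j) (d j) (i j) (N j) (B j)) :
    ∃ l : ι → ℝ → ℂ,
      (∀ j, ∃ Z : Set ℝ, dimH Z = 0 ∧ ∀ u : ℝ, u ∉ Z → l j u ≠ 0 ∧ ∀ C : ℝ,
        Tendsto (LGood (X j) (d j) (i j) (N j) (B j)) (𝓝[angle (i j) u C] (edgePoint (i j) u))
          (𝓝 (l j u))) ∧
      (∀ (c τ : ι → ℝ) (A : ℝ),
        ¬ OftenAbove A (fun u => ∑ j, c j * Real.log ‖l j (u + τ j)‖) →
        (∀ s : ℂ, 1 < s.re → |∑ j, c j * Real.log ‖LGood (X j) (d j) (i j) (N j) (B j)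
            (s + τ j * Complex.I + (i j : ℂ) / 2)‖| ≤
          A + ∑ j, |c j| * (Module.finrank ℚ (K j) * N j)) ∧
        ∀ (t : ℝ) (m : ι → ℤ),
          (∀ j, HasOrder (LGood (X j) (d j) (i j) (N j) (B j)) (i j) (t + τ j) (m j)) →
          ∑ j, c j * m j = 0) ∧
      ∀ (k : ι) (τ A : ℝ), τ ≠ 0 →
        ¬ OftenAbove A (fun u => Real.log ‖l k (u + τ)‖ - Real.log ‖l k u‖) →
        (∀ ε : ℝ, 0 < ε → ∃ C : ℝ, ∀ x : ℝ, 0 < x → x ≤ 1 → ∀ t : ℝ,
          |Real.log ‖LGood (X k) (d k) (i k) (N k) (B k) (edgePoint (i k) t + x)‖| ≤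
            ε * Real.log (1 / x) + C) ∧
        (∀ (t : ℝ) (m : ℤ), HasOrder (LGood (X k) (d k) (i k) (N k) (B k)) (i k) t m → m = 0) ∧
        ∀ (t : ℝ) (m : ℤ), HasOrder (LFun (B k)) (i k) t m → m ≤ 0 := by
  rename_i hB
  set b : ι → Pool.Agent.TH339.MP.PP → ℂ := fun j => Pool.Agent.TH339.MP.bb
    (Pool.Agent.R409.EV.be (X j) (d j) (i j) (N j) (B j)) with hb
  have hbb : ∀ j x, ‖b j x‖ ≤ ((Module.finrank ℚ (K j) : ℝ) * N j) / (x.2 + 1 : ℕ) := fun j x =>
    Pool.Agent.TH339.MP.norm_bb (Pool.Agent.R409.EV.norm_be _ _ _ _ _) x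
  have hre : ∀ (x t : ℝ), 0 < x → 1 < (((1 + x : ℝ) : ℂ) + (t : ℂ) * Complex.I).re := by
    intro x t hx
    rw [Complex.add_re, Complex.ofReal_re, Complex.re_ofReal_mul, Complex.I_re, mul_zero, add_zero]
    linarith
  refine ⟨fun j u => Complex.exp (Pool.Agent.TH339.MP.bl (b j) u), fun j => LGood_angle,
    fun c τ A h => ?_, fun k τ A hτ h => ?_⟩
  · -- products of shifts
    have hm : Mostly A (Phi0 (fun j => bs (b j) (τ j)) c) := by
      refine mostly_congr ?_ (mostly_of_not h)
      have h1 : ∀ᵐ u : ℝ, ∀ j, Pool.Agent.TH339.MP.bl (bs (b j) (τ j)) u =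
          Pool.Agent.TH339.MP.bl (b j) (u + τ j) := ae_all_iff.2 fun j => bl_bs (hbb j) (τ j)
      filter_upwards [h1] with u hu
      unfold Phi0
      refine Finset.sum_congr rfl fun j _ => ?_
      rw [hu j, Complex.norm_exp, Real.log_exp]
    have hbound : ∀ s : ℂ, 1 < s.re → |∑ j, c j * Real.log ‖LGood (X j) (d j) (i j) (N j) (B j)
        (s + τ j * Complex.I + (i j : ℂ) / 2)‖| ≤
        A + ∑ j, |c j| * (Module.finrank ℚ (K j) * N j) := by
      intro s hs
      have h1 := fam_bound (fun j => norm_bs (hbb j) (τ j)) c hm hs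
      refine le_trans (le_of_eq ?_) h1
      congr 1
      refine Finset.sum_congr rfl fun j _ => ?_
      rw [FF_bs, log_LGood (by simpa using hs)]
    refine ⟨hbound, fun t m hord => ?_⟩
    choose C hC using fun j => log_order (hord j)
    have hC0 : ∀ᶠ x : ℝ in 𝓝[>] 0, ∀ j,
        |(Pool.Agent.TH339.MP.FF (b j) (((1 + x : ℝ) : ℂ) + ((t + τ j : ℝ) : ℂ) *
          Complex.I)).re - m j * Real.log x| ≤ C j := eventually_all.2 hC
    by_contra hne
    have hpos : 0 < |∑ j, c j * (m j : ℝ)| := abs_pos.2 hne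
    set E : ℝ := A + (∑ j, |c j| * (Module.finrank ℚ (K j) * N j)) + ∑ j, |c j| * C j with hE
    have hx1 : ∀ᶠ x : ℝ in 𝓝[>] 0, x ≤ 1 := by
      have h2 : ∀ᶠ x : ℝ in 𝓝 0, x ≤ 1 := eventually_le_nhds (by norm_num)
      exact h2.filter_mono nhdsWithin_le_nhds
    obtain ⟨x, h1, h2, h3, hx⟩ := (hC0.and (hx1.and
      ((eventually_log (E / |∑ j, c j * (m j : ℝ)|)).and self_mem_nhdsWithin))).exists
    have hx' : (0 : ℝ) < x := hx
    have h4 := hbound (((1 + x : ℝ) : ℂ) + (t : ℂ) * Complex.I) (hre x t hx')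
    have h5 : ∀ j, Real.log ‖LGood (X j) (d j) (i j) (N j) (B j)
        ((((1 + x : ℝ) : ℂ) + (t : ℂ) * Complex.I) + τ j * Complex.I + (i j : ℂ) / 2)‖ =
        (Pool.Agent.TH339.MP.FF (b j) (((1 + x : ℝ) : ℂ) + ((t + τ j : ℝ) : ℂ) *
          Complex.I)).re := by
      intro j
      have h6 : (((1 + x : ℝ) : ℂ) + (t : ℂ) * Complex.I) + τ j * Complex.I =
          ((1 + x : ℝ) : ℂ) + ((t + τ j : ℝ) : ℂ) * Complex.I := by
        push_cast
        ring
      rw [h6, log_LGood (hre x (t + τ j) hx')]
    simp_rw [h5] at h4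
    have h6 : (∑ j, c j * (m j : ℝ)) * Real.log x =
        (∑ j, c j * (Pool.Agent.TH339.MP.FF (b j) (((1 + x : ℝ) : ℂ) + ((t + τ j : ℝ) : ℂ) *
          Complex.I)).re) - ∑ j, c j * ((Pool.Agent.TH339.MP.FF (b j) (((1 + x : ℝ) : ℂ) +
          ((t + τ j : ℝ) : ℂ) * Complex.I)).re - m j * Real.log x) := by
      rw [← Finset.sum_sub_distrib, Finset.sum_mul]
      refine Finset.sum_congr rfl fun j _ => ?_
      ring
    have h7 : |∑ j, c j * ((Pool.Agent.TH339.MP.FF (b j) (((1 + x : ℝ) : ℂ) +
          ((t + τ j : ℝ) : ℂ) * Complex.I)).re - m j * Real.log x)| ≤ ∑ j, |c j| * C j := by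
      refine (Finset.abs_sum_le_sum_abs _ _).trans (Finset.sum_le_sum fun j _ => ?_)
      rw [abs_mul]
      exact mul_le_mul_of_nonneg_left (h1 j) (abs_nonneg _)
    have h8 : |∑ j, c j * (m j : ℝ)| * (-Real.log x) ≤ E := by
      have h9 : |(∑ j, c j * (m j : ℝ)) * Real.log x| =
          |∑ j, c j * (m j : ℝ)| * (-Real.log x) := by
        rw [abs_mul, abs_of_nonpos (Real.log_nonpos hx'.le h2)]
      rw [← h9, h6]
      refine (abs_sub _ _).trans ?_
      rw [hE]
      linarith
    rw [div_lt_iff₀ hpos] at h3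
    linarith
  · -- one function and its shift
    have hm : Mostly A (dl (b k) τ) := by
      refine mostly_congr ?_ (mostly_of_not h)
      refine Eventually.of_forall fun u => ?_
      simp only [Complex.norm_exp, Real.log_exp]
      rfl
    have hsmall := fun (ε : ℝ) (hε : 0 < ε) => small_order (hbb k) hτ hm hε
    have hzero : ∀ (t : ℝ) (m : ℤ),
        HasOrder (LGood (X k) (d k) (i k) (N k) (B k)) (i k) t m → m = 0 :=
      fun t m hord => order_zero hord hsmall
    refine ⟨fun ε hε => ?_, hzero, fun t m hord => ?_⟩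
    · obtain ⟨C, hC⟩ := hsmall ε hε
      refine ⟨C, fun x h0 h1 t => ?_⟩
      rw [edge_add, log_LGood (hre x t h0), one_div, Real.log_inv]
      exact hC x h0 h1 t
    · obtain ⟨q, hq⟩ := order_full (hB k) hord
      have h1 := hzero t _ hq
      omega

end Pool.Agent.Results.MP_2b9663_nt.BoundedQuotients
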