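import Mathlib
import Pool.Agent.U309.ED.HC6

/-!
# Products of random curves, even degree: the distribution of `L(H^{2a}(X), s)` at the edge point `s₀ = a + 1`, relative to the predicted pole

`K` is any number field (a smooth projective variety over `K` is a smooth projective variety over `ℚ` with the same L-functions), with an
integral basis `ω`. For `j ∈ R` let `G_j(w; x)` be a monic polynomial in `x` of odd degree `d_j ≥ 3` whose coefficients are arbitrary
polynomials over `𝓞 K` in finitely many integer parameters `w`, let `C_{j,c}` be the hyperelliptic curve `y² = G_j(w; x) + u_j x + t_j`,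
`u_j = ∑_l u_{j,l} ω_l`, `t_j = ∑_l t_{j,l} ω_l`, `c = (t, u, w)`, and `X_c = ∏_j C_{j,c}`.  Let `1 ≤ a ≤ |R| - 1`, so that `2a` is any even degree
strictly between `0` and `2 dim X_c`, and `m = binom(|R|, a)`.

`H^{2a}(X_c)` contains the classes of the `m` coordinate cycles of codimension `a` (products of points and curves), a subspace `ℚ_ℓ(-a)^m`; so
`L(H^{2a}(X_c), s) = ζ(s - a)^m Λ_c(s)`, with the Euler product `ζ` of the zeta function of `K` over the good primes, which has a pole of order `m` at the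
edge point `s₀ = a + 1`. By the conjectures `Λ_c(s₀)` is neither `0` nor `∞` for a general member.

**Theorem.**  For points `σ_H → s₀` with `(Re σ_H - s₀) log H → ∞` and every `τ > 0`, the proportion of the `c`, `|c_k| ≤ H`, with
`|L(H^{2a}(X_c), σ_H)| ≤ τ |ζ(σ_H - a)|^m` converges to `Φ(τ)`.  The distribution function `Φ` does not depend on the `σ_H`, is continuous and
strictly increasing on `(0, ∞)`, `0 < Φ < 1`, and both tails are double exponentially small:
`exp(-exp(C τ^B)) ≤ Φ(1/τ), 1 - Φ(τ) ≤ exp(-exp(c τ^{1/b}))`, `b = [K : ℚ] (b_{2a}(X) - m)`, `b_{2a}(X)` the Betti number, i.e. the coefficient of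
`t^{2a}` in `∏_j (1 + (d_j - 1) t + t²)`; and `b > 0`.

So outside a double exponentially small proportion of the members the L-function has, at the distance `(large)/log H` of `s₀`, exactly the size of
the predicted pole of order `m = binom(|R|, a)`: no zero at `s₀`, and no pole of a larger order, is visible.  By Künneth the trace of the `k`-th power of the
Frobenius at `v` on `H^i(X_c)` is the coefficient of `t^i` in `∏_j (1 + tr(A_j^k) t + N v^k t²)`, `A_j` the Frobenius on `H¹(C_j)`, given by point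
counts. The L-functions are Euler products over the `v` above the primes `p` at which all `v ∣ p` are good.

New (`Pool/Agent/U309/ED`): the mean of the trace on the quotient of `H^{2a}` by the coordinate cycles is zero and its second moment is of the full
order `N v^{2a}`, by orthogonality over the places above `p` and over the curves; tails, support and absence of atoms for the sums over the primes.
Nothing about continuation is assumed or proved.
-/

set_option autoImplicit false

open NumberField IsDedekindDomain Polynomial Filter Topology MeasureTheory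

namespace Pool.Agent.Results.MP_2b9663_nt.EvenEdgeDistribution

section
variable {K : Type} [Field K] [NumberField K]

/-- Number of affine points of `y² = g(x)` with coordinates in the extension of degree `m` of the finite field `k`, i.e. the field of the
elements of the algebraic closure of `k` which are fixed by the `m`-th power of the Frobenius of `k`. -/
noncomputable def affineCount (k : Type) [Field k] (g : k[X]) (m : ℕ) : ℕ :=
  Nat.card {P : AlgebraicClosure k × AlgebraicClosure k //
    P.1 ^ (Nat.card k ^ m) = P.1 ∧ P.2 ^ (Nat.card k ^ m) = P.2 ∧ P.2 ^ 2 = aeval P.1 g}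

/-- Number of points at infinity of the smooth projective curve `y² = g(x)` over the extension of degree `m` of `k`: one if the degree of `g`
is odd, and otherwise the number of square roots of the leading coefficient. -/
noncomputable def infinityCount (k : Type) [Field k] (g : k[X]) (m : ℕ) : ℕ :=
  if Odd g.natDegree then 1 else
    Nat.card {y : AlgebraicClosure k // y ^ (Nat.card k ^ m) = y ∧
      y ^ 2 = algebraMap k (AlgebraicClosure k) g.leadingCoeff}

/-- Trace of the `m`-th power of the Frobenius at `v` on `H¹` of the curve `y² = f(x)`: `q^m + 1` minus the number of its points over the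
field with `q^m` elements, `q = N v`. -/
noncomputable def trace (f : (𝓞 K)[X]) (v : HeightOneSpectrum (𝓞 K)) (m : ℕ) : ℤ :=
  haveI : v.asIdeal.IsMaximal := v.isMaximal
  letI : Field (𝓞 K ⧸ v.asIdeal) := Ideal.Quotient.field v.asIdeal
  ((Ideal.absNorm v.asIdeal : ℕ) : ℤ) ^ m + 1 -
    (affineCount (𝓞 K ⧸ v.asIdeal) (f.map (Ideal.Quotient.mk v.asIdeal)) m +
      infinityCount (𝓞 K ⧸ v.asIdeal) (f.map (Ideal.Quotient.mk v.asIdeal)) m)

/-- Good reduction: `v` does not divide `2` and the reduction of `f` is separable, of degree `d`. -/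
def Good (f : (𝓞 K)[X]) (d : ℕ) (v : HeightOneSpectrum (𝓞 K)) : Prop :=
  (2 : 𝓞 K) ∉ v.asIdeal ∧ (f.map (Ideal.Quotient.mk v.asIdeal)).natDegree = d ∧
    (f.map (Ideal.Quotient.mk v.asIdeal)).Separable

/-- The trace of the `k`-th power of the Frobenius at `v` on `H^i(∏_j C_j)`, where `C_j` is the curve `y² = f_j(x)`, by Künneth: the coefficient
of `t^i` in `∏_j (1 + tr(A_j^k) t + N v^k t²)`. -/
noncomputable def localTrace {R : Type} [Fintype R] (i : ℕ) (f : R → (𝓞 K)[X]) (v : HeightOneSpectrum (𝓞 K)) (k : ℕ) : ℝ :=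
  PowerSeries.coeff i (∏ j, (1 + PowerSeries.C ((trace (f j) v k : ℤ) : ℝ) * PowerSeries.X +
    PowerSeries.C (((Ideal.absNorm v.asIdeal : ℕ) : ℝ) ^ k) * PowerSeries.X ^ 2))

/-- The trace of the `k`-th power of the Frobenius at `v` on the class of a cycle of codimension `a`, i.e. on `ℚ_ℓ(-a)`. -/
noncomputable def cycleTrace (a : ℕ) (v : HeightOneSpectrum (𝓞 K)) (k : ℕ) : ℝ :=
  (((Ideal.absNorm v.asIdeal : ℕ) : ℝ) ^ k) ^ a

open Classical in
/-- The sum over the places `v` above `p`, of residue degree `f_v` dividing `k`, of `f_v` times the local trace of the power `k / f_v`. -/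
noncomputable def frobTrace (t : HeightOneSpectrum (𝓞 K) → ℕ → ℝ) (p k : ℕ) : ℝ :=
  ∑ᶠ v : {v : HeightOneSpectrum (𝓞 K) // (p : 𝓞 K) ∈ v.asIdeal},
    if Nat.log p (Ideal.absNorm v.1.asIdeal) ∣ k then
      (Nat.log p (Ideal.absNorm v.1.asIdeal) : ℝ) * t v.1 (k / Nat.log p (Ideal.absNorm v.1.asIdeal))
    else 0

open Classical in
/-- The logarithm `∑ (frobTrace t p k) p^{-ks} / k` of the product of the Euler factors at the places above `p`, for local traces `t`; it is
omitted if one of these places is not good. -/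
noncomputable def logFactor (t : HeightOneSpectrum (𝓞 K) → ℕ → ℝ) (G : HeightOneSpectrum (𝓞 K) → Prop)
    (s : ℂ) (p : ℕ) : ℂ :=
  if ∃ v : HeightOneSpectrum (𝓞 K), (p : 𝓞 K) ∈ v.asIdeal ∧ ¬ G v then 0 else
    ∑' k : ℕ, (frobTrace t p (k + 1) : ℂ) / ((k : ℂ) + 1) * (p : ℂ) ^ (-(((k : ℂ) + 1) * s))

/-- The L-function: the product of the Euler factors. -/
noncomputable def LSeries (t : HeightOneSpectrum (𝓞 K) → ℕ → ℝ) (G : HeightOneSpectrum (𝓞 K) → Prop) (s : ℂ) : ℂ :=
  ∏' p : Nat.Primes, Complex.exp (logFactor t G s (p : ℕ))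

variable {J : Type} [Fintype J] [DecidableEq J]

/-- The member `F(c; x)` of the family. -/
noncomputable def member (F : (MvPolynomial J (𝓞 K))[X]) (c : J → ℤ) : (𝓞 K)[X] :=
  F.map (MvPolynomial.eval (fun j => ((c j : ℤ) : 𝓞 K)))

/-- `L(H^i(X_c), s)`, the Euler product over the primes `p` such that all the curves `C_{j,c}` have good reduction at all places above `p`. -/
noncomputable def LSeriesc {R : Type} [Fintype R] (i : ℕ) (F : R → (MvPolynomial J (𝓞 K))[X]) (c : J → ℤ) (s : ℂ) : ℂ :=
  LSeries (localTrace i (fun j => member (F j) c)) (fun v => ∀ j, Good (member (F j) c) (F j).natDegree v) s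

/-- `ζ(s - a)`, the Euler product of the zeta function of `K` over the same primes. -/
noncomputable def zetac {R : Type} [Fintype R] (a : ℕ) (F : R → (MvPolynomial J (𝓞 K))[X]) (c : J → ℤ) (s : ℂ) : ℂ :=
  LSeries (cycleTrace a) (fun v => ∀ j, Good (member (F j) c) (F j).natDegree v) s

/-- The integer vectors with coordinates of absolute value at most `H`. -/
noncomputable def box (ι : Type) [Fintype ι] [DecidableEq ι] (H : ℕ) : Finset (ι → ℤ) :=
  Fintype.piFinset fun _ => Finset.Icc (-(H : ℤ)) H

/-- The parameters: the coordinates of the constant coefficients `t_j`, of the linear coefficients `u_j`, and further integers `w`. -/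
abbrev Param (R I J : Type) : Type := ((R × I) ⊕ (R × I)) ⊕ J

/-- The family `G_j(w; x) + u_j x + t_j`, with `u_j = ∑_l u_{j,l} ω_l`, `t_j = ∑_l t_{j,l} ω_l`. -/
noncomputable def family {R I : Type} [Fintype I] (ω : Module.Basis I ℤ (𝓞 K)) (G : R → (MvPolynomial J (𝓞 K))[X]) (j : R) :
    (MvPolynomial (Param R I J) (𝓞 K))[X] :=
  (G j).map (MvPolynomial.rename Sum.inr).toRingHom +
    C (∑ l, MvPolynomial.X (Sum.inl (Sum.inr (j, l))) * MvPolynomial.C (ω l)) * X +
    C (∑ l, MvPolynomial.X (Sum.inl (Sum.inl (j, l))) * MvPolynomial.C (ω l))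

/-- The `i`-th Betti number of the product of the curves `y² = g_j(x)`, `deg g_j = d_j` odd: the coefficient of `t^i` in
`∏_j (1 + (d_j - 1) t + t²)`. -/
noncomputable def betti {R : Type} [Fintype R] (d : R → ℕ) (i : ℕ) : ℝ :=
  PowerSeries.coeff i (∏ j, (1 + PowerSeries.C ((d j : ℝ) - 1) * PowerSeries.X + PowerSeries.C (1 : ℝ) * PowerSeries.X ^ 2))

/-- The distribution of the absolute values of the members of a family of functions at the point `1 + i/2`: a limit distribution function `Φ`
which is continuous and strictly increasing on `(0, ∞)`, with two-sided double exponential bounds for both tails. -/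
def EdgeLaw {ι : Type} [Fintype ι] [DecidableEq ι] (i : ℕ) (b : ℝ) (L : (ι → ℤ) → ℂ → ℂ) : Prop :=
  ∃ Φ : ℝ → ℝ, ContinuousOn Φ (Set.Ioi 0) ∧ StrictMonoOn Φ (Set.Ioi 0) ∧ (∀ τ : ℝ, 0 < τ → 0 < Φ τ ∧ Φ τ < 1) ∧
    (∃ c C B τ₀ : ℝ, 0 < c ∧ 0 < C ∧ 0 < B ∧ ∀ τ : ℝ, τ₀ ≤ τ →
      Real.exp (-Real.exp (C * τ ^ B)) ≤ Φ (1 / τ) ∧ Φ (1 / τ) ≤ Real.exp (-Real.exp (c * τ ^ (1 / b))) ∧
      Real.exp (-Real.exp (C * τ ^ B)) ≤ 1 - Φ τ ∧ 1 - Φ τ ≤ Real.exp (-Real.exp (c * τ ^ (1 / b)))) ∧
    ∀ σ : ℕ → ℂ, Tendsto σ atTop (𝓝 (1 + (i : ℂ) / 2)) →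
      Tendsto (fun H : ℕ => ((σ H).re - (1 + (i : ℝ) / 2)) * Real.log H) atTop atTop →
      ∀ τ : ℝ, 0 < τ → Tendsto (fun H : ℕ => (((box ι H).filter (fun c => ‖L c (σ H)‖ ≤ τ)).card : ℝ) /
        (box ι H).card) atTop (𝓝 (Φ τ))

theorem member_family {R I : Type} [Fintype I] (ω : Module.Basis I ℤ (𝓞 K)) (G : R → (MvPolynomial J (𝓞 K))[X]) (j : R)
    (c : Param R I J → ℤ) : member (family ω G j) c =
      (G j).map (MvPolynomial.eval (fun w => ((c (Sum.inr w) : ℤ) : 𝓞 K))) +
        C (∑ l, ((c (Sum.inl (Sum.inr (j, l))) : ℤ) : 𝓞 K) * ω l) * X +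
        C (∑ l, ((c (Sum.inl (Sum.inl (j, l))) : ℤ) : 𝓞 K) * ω l) := by
  unfold member family
  rw [Polynomial.map_add, Polynomial.map_add, Polynomial.map_mul, map_C, map_C, map_X, Polynomial.map_map]
  congr 1
  · congr 1
    · congr 1
      apply RingHom.ext
      intro P
      rw [RingHom.comp_apply]
      exact MvPolynomial.eval_rename _ _ _
    · simp
  · simp

theorem shH {R I : Type} [Fintype R] [DecidableEq R] [Fintype I] [DecidableEq I] (ω : Module.Basis I ℤ (𝓞 K))
    (G : R → (MvPolynomial J (𝓞 K))[X]) (hG : ∀ j, (G j).Monic) (ho : ∀ j, Odd (G j).natDegree)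
    (h3 : ∀ j, 3 ≤ (G j).natDegree) : Pool.Agent.U309.ED.ShH (family (R := R) ω G) := by
  have hm : ∀ j, ((G j).map (MvPolynomial.rename (Sum.inr : J → Param R I J)).toRingHom).Monic := fun j => (hG j).map _
  have hd : ∀ j, ((G j).map (MvPolynomial.rename (Sum.inr : J → Param R I J)).toRingHom).natDegree = (G j).natDegree :=
    fun j => (hG j).natDegree_map _
  have hlin : ∀ j, (C (∑ l, MvPolynomial.X (Sum.inl (Sum.inr (j, l))) * MvPolynomial.C (ω l)) * X +
      C (∑ l, MvPolynomial.X (Sum.inl (Sum.inl (j, l))) * MvPolynomial.C (ω l)) :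
      (MvPolynomial (Param R I J) (𝓞 K))[X]).natDegree ≤ 1 := fun j => natDegree_linear_le
  have hnd : ∀ j, (family (R := R) ω G j).natDegree = (G j).natDegree := by
    intro j
    unfold family
    rw [add_assoc, natDegree_add_eq_left_of_natDegree_lt, hd j]
    rw [hd j]
    have := h3 j
    have := hlin j
    omega
  refine ⟨fun j => ?_, fun j => ?_, fun j => ?_, ?_⟩
  · unfold family
    rw [add_assoc]
    apply (hm j).add_of_left
    apply degree_lt_degree
    rw [hd j]
    have := h3 j
    have := hlin j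
    omega
  · rw [hnd j]
    exact ho j
  · rw [hnd j]
    have := h3 j
    omega
  · intro j0 x y
    refine ⟨Sum.elim (Sum.elim (fun q => if q.1 = j0 then ω.repr y q.2 else 0) (fun q => if q.1 = j0 then ω.repr x q.2 else 0))
      (fun _ => 0), fun c => ?_⟩
    have key : ∀ (z : 𝓞 K) (g : I → ℤ) , ∑ l, ((g l + ω.repr z l : ℤ) : 𝓞 K) * ω l = ∑ l, ((g l : ℤ) : 𝓞 K) * ω l + z := by
      intro z g
      have h2 := ω.sum_repr z
      rw [← h2, ← Finset.sum_add_distrib]
      refine Finset.sum_congr rfl fun l _ => ?_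
      rw [h2, Int.cast_add, add_mul, zsmul_eq_mul]
    constructor
    · have h1 := member_family ω G j0 (c + Sum.elim (Sum.elim (fun q => if q.1 = j0 then ω.repr y q.2 else 0)
        (fun q => if q.1 = j0 then ω.repr x q.2 else 0)) (fun _ => 0))
      have h2 := member_family ω G j0 c
      refine h1.trans ?_
      refine Eq.trans ?_ (congrArg (fun P : (𝓞 K)[X] => P + C x * X + C y) h2.symm)
      simp only [Pi.add_apply, Sum.elim_inl, Sum.elim_inr, if_true, add_zero]
      rw [key x (fun l => c (Sum.inl (Sum.inr (j0, l)))), key y (fun l => c (Sum.inl (Sum.inl (j0, l))))]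
      rw [C_add, C_add]
      ring
    · intro j hj
      have h1 := member_family ω G j (c + Sum.elim (Sum.elim (fun q => if q.1 = j0 then ω.repr y q.2 else 0)
        (fun q => if q.1 = j0 then ω.repr x q.2 else 0)) (fun _ => 0))
      have h2 := member_family ω G j c
      refine h1.trans (Eq.trans ?_ h2.symm)
      simp only [Pi.add_apply, Sum.elim_inl, Sum.elim_inr, if_neg hj, add_zero]


theorem localTrace_eq {R : Type} [Fintype R] [DecidableEq R] (i : ℕ) (F : R → (MvPolynomial J (𝓞 K))[X])
    (c : J → ℤ) : localTrace i (fun j => member (F j) c) =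
      Pool.Agent.N534.HC.Inst.tH (Pool.Agent.U309.ED.Hc R i) F c := by
  funext v k
  unfold localTrace Pool.Agent.N534.HC.Inst.tH Pool.Agent.N534.HC.chv Pool.Agent.U309.ED.Hc
  rw [Pool.Agent.N534.HC.Coh.Hd_eval (fun _ => false) i _ (fun j l => ((trace (member (F j) c) v (k * l) : ℤ) : ℝ))
    (fun j l => congrArg (Int.cast : ℤ → ℝ)
      (Pool.Agent.N534.HC.Inst.trace_eq (member (F j) c) v (k * (l + 1))).symm)]
  unfold Pool.Agent.N534.HC.Coh.cohom
  simp only [mul_one]
  rfl

theorem LSeriesc_eq {R : Type} [Fintype R] [DecidableEq R] (i : ℕ) (F : R → (MvPolynomial J (𝓞 K))[X])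
    (c : J → ℤ) (s : ℂ) : LSeriesc i F c s = Pool.Agent.N534.HC.St.LSeries
      (Pool.Agent.N534.HC.Inst.tH (Pool.Agent.U309.ED.Hc R i) F c) (Pool.Agent.N534.HC.Inst.gH F c) s := by
  unfold LSeriesc
  rw [localTrace_eq]
  rfl

theorem zetac_eq {R : Type} [Fintype R] [DecidableEq R] (a : ℕ) (F : R → (MvPolynomial J (𝓞 K))[X])
    (c : J → ℤ) (s : ℂ) : zetac a F c s = Pool.Agent.N534.HC.St.LSeries
      (Pool.Agent.U309.ED.tT a) (Pool.Agent.N534.HC.Inst.gH F c) s := rfl

/-- **The even cohomology of products of random curves at the edge point `a + 1`.** -/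
theorem result {R I : Type} [Fintype R] [DecidableEq R] [Fintype I] [DecidableEq I]
    (ω : Module.Basis I ℤ (𝓞 K)) (G : R → (MvPolynomial J (𝓞 K))[X]) (hG : ∀ j, (G j).Monic)
    (ho : ∀ j, Odd (G j).natDegree) (h3 : ∀ j, 3 ≤ (G j).natDegree) (a : ℕ) (ha : 1 ≤ a) (ha2 : a + 1 ≤ Fintype.card R) :
    0 < betti (fun j => (G j).natDegree) (2 * a) - ((Fintype.card R).choose a : ℝ) ∧
    (∀ (c : Param R I J → ℤ) (s : ℂ), 1 + (a : ℝ) < s.re →
      zetac a (family ω G) c s ≠ 0 ∧ LSeriesc (2 * a) (family ω G) c s ≠ 0) ∧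
    EdgeLaw (2 * a) (Module.finrank ℚ K * (betti (fun j => (G j).natDegree) (2 * a) - ((Fintype.card R).choose a : ℝ)))
      (fun (c : Param R I J → ℤ) s =>
        LSeriesc (2 * a) (family ω G) c s / zetac a (family ω G) c s ^ ((Fintype.card R).choose a)) := by
  have hne : Nonempty R := Fintype.card_pos_iff.mp (by omega)
  have hs := shH ω G hG ho h3
  have hnd : ∀ j, (family (R := R) ω G j).natDegree = (G j).natDegree := by
    intro j
    have hd := (hG j).natDegree_map (MvPolynomial.rename (Sum.inr : J → Param R I J)).toRingHom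
    have hlin : (C (∑ l, MvPolynomial.X (Sum.inl (Sum.inr (j, l))) * MvPolynomial.C (ω l)) * X +
      C (∑ l, MvPolynomial.X (Sum.inl (Sum.inl (j, l))) * MvPolynomial.C (ω l)) :
      (MvPolynomial (Param R I J) (𝓞 K))[X]).natDegree ≤ 1 := natDegree_linear_le
    unfold family
    rw [add_assoc, natDegree_add_eq_left_of_natDegree_lt, hd]
    rw [hd]
    have := h3 j
    omega
  have e1 : (fun j => (family (R := R) ω G j).natDegree) = fun j => (G j).natDegree := funext hnd
  have hpos := Pool.Agent.U309.ED.rk_pos hs ha ha2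
  have hz : ∀ (c : Param R I J → ℤ) (s : ℂ), 1 + ((2 * a : ℕ) : ℝ) / 2 < s.re → zetac a (family ω G) c s ≠ 0 := by
    intro c s hs'
    rw [zetac_eq, Pool.Agent.U309.ED.tT_eq a (family (R := R) ω G) c,
      Pool.Agent.U309.ED.LSeries_exp (Pool.Agent.U309.ED.X_wt (R := R) a) hs.adm c s hs']
    exact Complex.exp_ne_zero _
  have h1 := Pool.Agent.U309.ED.even_edge hs ha ha2
    (X := fun (c : Param R I J → ℤ) s =>
      LSeriesc (2 * a) (family ω G) c s / zetac a (family ω G) c s ^ ((Fintype.card R).choose a)) (by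
      intro c s hs'
      have h2 := hz c s hs'
      rw [div_eq_iff (pow_ne_zero _ h2), LSeriesc_eq, zetac_eq, Pool.Agent.U309.ED.quot_eq hs a c s hs', mul_comm]) hpos
  rw [e1] at h1 hpos
  have ea : 1 + ((2 * a : ℕ) : ℝ) / 2 = 1 + (a : ℝ) := by
    push_cast
    ring
  refine ⟨hpos, fun c s hs' => ⟨hz c s (by rw [ea]; exact hs'), ?_⟩, h1⟩
  rw [LSeriesc_eq, Pool.Agent.U309.ED.LSeries_exp (Pool.Agent.U309.ED.Hc_wt (R := R) (2 * a)) hs.adm c s (by rw [ea]; exact hs')]
  exact Complex.exp_ne_zero _

end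

end Pool.Agent.Results.MP_2b9663_nt.EvenEdgeDistribution
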